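import Pool.Agent.Lib.helper22.Lind

namespace Pool.Agent.H.MP_7aa09c_an

open Metric Pool.Agent.Lib.helper22.Lind Finset
open scoped ENNReal

noncomputable def E (n : ℕ) : C0 := (2:ℝ) • e n

lemma E_app (n k : ℕ) : E n k = if k = n then 1 else 0 := by
  show (2:ℝ) * e n k = _
  rw [e_app]; split_ifs <;> simp

noncomputable def ev (n : ℕ) : C0 →L[ℝ] ℝ :=
  LinearMap.mkContinuous ⟨⟨fun x => x n, fun _ _ => rfl⟩, fun _ _ => rfl⟩ 1
    fun x => by rw [one_mul]; exact co x n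

lemma ev_app (n : ℕ) (x : C0) : ev n x = x n := rfl

noncomputable def md (z : C0) (A : Finset ℕ) (a : ℕ → ℝ) : C0 := z + ∑ n ∈ A, (a n - z n) • E n

lemma md_app (z : C0) (A : Finset ℕ) (a : ℕ → ℝ) (k : ℕ) :
    md z A a k = if k ∈ A then a k else z k := by
  rw [← ev_app, md, map_add, map_sum]
  simp only [map_smul, ev_app, E_app, smul_eq_mul, mul_ite, mul_one, mul_zero]
  rw [sum_ite_eq]
  split_ifs <;> simp

lemma f_md (f : C0 →L[ℝ] ℝ) (z : C0) (A : Finset ℕ) (a : ℕ → ℝ) :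
    f (md z A a) = f z + ∑ n ∈ A, (a n - z n) * f (E n) := by
  rw [md, map_add, map_sum]
  simp only [map_smul, smul_eq_mul]

lemma nrm {X : Type} [NormedAddCommGroup X] [NormedSpace ℝ X] (f g0 : X →L[ℝ] ℝ) (x : X) (M ε : ℝ)
    (hε : 0 < ε) (hε1 : ε ≤ 1 / 4) (hg0n : ‖g0‖ ≤ M) (hgx : g0 x = M) (hM1 : M ≤ 1)
    (hM2 : 1 - 2 * ε ≤ M) (k1 : ∀ z, ‖z‖ ≤ 1 → f z - g0 z ≤ ε) :
    ∃ g : X →L[ℝ] ℝ, ‖g‖ ≤ 1 ∧ g x = 1 ∧ ‖g - f‖ ≤ 3 * ε := by
  have k2 : ‖f - g0‖ ≤ ε := by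
    refine ContinuousLinearMap.opNorm_le_of_unit_norm hε.le fun z hz => ?_
    have a1 := k1 z hz.le
    have a2 := k1 (-z) (by rw [norm_neg]; exact hz.le)
    rw [map_neg, map_neg] at a2
    rw [sub_apply, Real.norm_eq_abs, abs_le]
    constructor <;> linarith
  have hMp : 0 < M := by linarith
  refine ⟨M⁻¹ • g0, ?_, ?_, ?_⟩
  · rw [norm_smul, Real.norm_eq_abs, abs_of_pos (inv_pos.2 hMp), inv_mul_le_iff₀ hMp, mul_one]
    exact hg0n
  · rw [smul_apply, hgx, smul_eq_mul, inv_mul_cancel₀ hMp.ne']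
  · have e1 : M⁻¹ • g0 - f = (M⁻¹ - 1) • g0 - (f - g0) := by
      ext z; simp; ring
    rw [e1]
    refine (norm_sub_le _ _).trans ?_
    have a1 : 0 ≤ M⁻¹ - 1 := by
      have := one_le_inv₀ hMp |>.2 hM1
      linarith
    rw [norm_smul, Real.norm_eq_abs, abs_of_nonneg a1]
    have a2 : (M⁻¹ - 1) * ‖g0‖ ≤ (M⁻¹ - 1) * M := mul_le_mul_of_nonneg_left hg0n a1
    rw [sub_mul M⁻¹ 1 M, inv_mul_cancel₀ hMp.ne'] at a2
    linarith

/-- functional version on c0 -/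
lemma bpb (f : C0 →L[ℝ] ℝ) (hf : ‖f‖ ≤ 1) (x0 : C0) (hx0 : ‖x0‖ ≤ 1) (ε : ℝ) (hε : 0 < ε)
    (hε1 : ε ≤ 1 / 4) (h : 1 - ε ^ 2 < f x0) :
    ∃ (g : C0 →L[ℝ] ℝ) (x : C0), ‖x‖ ≤ 1 ∧ ‖x - x0‖ ≤ ε ∧ ‖g‖ ≤ 1 ∧ g x = 1 ∧ ‖g - f‖ ≤ 3 * ε := by
  classical
  have hfin : {n | 1 - ε < |x0 n|}.Finite := by
    have := (zero_at_infty x0).abs.eventually
      (gt_mem_nhds (by simp; linarith : |(0 : ℝ)| < 1 - ε))
    rw [Filter.cocompact_eq_cofinite, Filter.eventually_cofinite] at this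
    exact this.subset fun n hn => by simp only [Set.mem_ofPred_eq] at hn ⊢; linarith
  set A := hfin.toFinset with hA
  set σ : ℕ → ℝ := fun n => if 0 ≤ f (E n) then 1 else -1 with hσ
  have hσ1 : ∀ n, σ n * f (E n) = |f (E n)| := by
    intro n
    simp only [hσ]
    split_ifs with h
    · rw [abs_of_nonneg h, one_mul]
    · rw [abs_of_neg (not_le.1 h)]; ring
  have hσ2 : ∀ n, σ n = 1 ∨ σ n = -1 := by
    intro n; simp only [hσ]; split_ifs <;> simp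
  set B := A.filter fun n => 1 - ε < σ n * x0 n with hB
  set g0 : C0 →L[ℝ] ℝ := ∑ n ∈ B, f (E n) • ev n with hg0
  have g0_app : ∀ z, g0 z = ∑ n ∈ B, f (E n) * z n := by
    intro z
    rw [hg0, _root_.sum_apply]
    rfl
  set M := ∑ n ∈ B, |f (E n)| with hM
  have hM0 : 0 ≤ M := sum_nonneg fun n _ => abs_nonneg _
  have hg0n : ‖g0‖ ≤ M := by
    refine g0.opNorm_le_bound hM0 fun z => ?_
    rw [g0_app, hM, sum_mul]
    refine (abs_sum_le_sum_abs _ _).trans (sum_le_sum fun n _ => ?_)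
    rw [abs_mul]
    exact mul_le_mul_of_nonneg_left (co z n) (abs_nonneg _)
  have hx : ∀ k, |x0 k| ≤ 1 := fun k => (co x0 k).trans hx0
  have k1 : ∀ z : C0, ‖z‖ ≤ 1 → f z - g0 z ≤ ε := by
    intro z hz
    have hz' : ∀ k, |z k| ≤ 1 := fun k => (co z k).trans hz
    set w := md z A fun n => if n ∈ B then 0 else σ n with hw
    have h1 : ‖x0 + ε • w‖ ≤ 1 := by
      refine nle _ zero_le_one fun k => ?_
      show |x0 k + ε * w k| ≤ 1
      rw [hw, md_app]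
      have a1 := abs_le.1 (hx k)
      have a2 := abs_le.1 (hz' k)
      split_ifs with c1 c2
      · simpa using hx k
      · have c3 : ¬ (1 - ε < σ k * x0 k) := fun c => c2 (mem_filter.2 ⟨c1, c⟩)
        rw [abs_le]
        rcases hσ2 k with c | c <;> rw [c] at c3 ⊢ <;> constructor <;> linarith
      · have c3 : |x0 k| ≤ 1 - ε := by
          by_contra c
          exact c1 (hfin.mem_toFinset.2 (not_le.1 c))
        have a3 := abs_le.1 c3
        rw [abs_le]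
        constructor <;> nlinarith
    have h2 : f (x0 + ε • w) ≤ 1 :=
      (le_abs_self _).trans ((f.le_opNorm _).trans (mul_le_one₀ hf (norm_nonneg _) h1))
    rw [map_add, map_smul, smul_eq_mul] at h2
    have h3 : f w ≤ ε := by
      by_contra c
      push Not at c
      nlinarith
    have h4 : f z - g0 z ≤ f w := by
      rw [hw, f_md, g0_app, hB, sum_filter, sub_eq_add_neg, ← sum_neg_distrib]
      refine add_le_add le_rfl (sum_le_sum fun n hn => ?_)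
      by_cases c : 1 - ε < σ n * x0 n
      · rw [if_pos c, if_pos (mem_filter.2 ⟨hn, c⟩)]; apply le_of_eq; ring
      · have c' : n ∉ A.filter fun n => 1 - ε < σ n * x0 n := fun c' => c (mem_filter.1 c').2
        rw [if_neg c, if_neg c', sub_mul, hσ1]
        have := mul_le_mul_of_nonneg_right (hz' n) (abs_nonneg (f (E n)))
        have := le_abs_self (z n * f (E n))
        rw [abs_mul] at this
        linarith
    linarith
  set x := md x0 B σ with hxd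
  have hx1 : ‖x‖ ≤ 1 := by
    refine nle _ zero_le_one fun k => ?_
    rw [hxd, md_app]
    split_ifs
    · rcases hσ2 k with c | c <;> simp [c]
    · exact hx k
  have hx2 : ‖x - x0‖ ≤ ε := by
    refine nle _ hε.le fun k => ?_
    show |x k - x0 k| ≤ ε
    rw [hxd, md_app]
    split_ifs with c
    · have c3 := (mem_filter.1 c).2
      have a1 := abs_le.1 (hx k)
      rw [abs_le]
      rcases hσ2 k with c | c <;> rw [c] at c3 ⊢ <;> constructor <;> linarith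
    · simpa using hε.le
  have hgx : g0 x = M := by
    rw [g0_app, hM]
    refine sum_congr rfl fun n hn => ?_
    rw [hxd, md_app, if_pos hn, mul_comm, hσ1]
  have hM1 : M ≤ 1 := by
    have h1 : ‖md 0 B σ‖ ≤ 1 := by
      refine nle _ zero_le_one fun k => ?_
      rw [md_app]
      split_ifs
      · rcases hσ2 k with c | c <;> simp [c]
      · simp
    have h2 : f (md 0 B σ) ≤ 1 :=
      (le_abs_self _).trans ((f.le_opNorm _).trans (mul_le_one₀ hf (norm_nonneg _) h1))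
    rw [f_md, map_zero, zero_add] at h2
    refine le_trans (le_of_eq ?_) h2
    refine sum_congr rfl fun n _ => ?_
    rw [← hσ1]; simp
  have hM2 : 1 - 2 * ε ≤ M := by
    have a1 := k1 x0 hx0
    have a2 : g0 x0 ≤ M :=
      (le_abs_self _).trans ((g0.le_opNorm _).trans
        ((mul_le_of_le_one_right (norm_nonneg _) hx0).trans hg0n))
    nlinarith
  obtain ⟨g, b1, b2, b3⟩ := nrm f g0 x M ε hε hε1 hg0n hgx hM1 hM2 k1
  exact ⟨g, x, hx1, hx2, b1, b2, b3⟩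

/-- property beta gives the operator version -/
lemma beta {X W ι : Type} [NormedAddCommGroup X] [NormedSpace ℝ X]
    (bpb : ∀ (f : X →L[ℝ] ℝ) (_ : ‖f‖ ≤ 1) (x0 : X) (_ : ‖x0‖ ≤ 1) (ε : ℝ) (_ : 0 < ε)
      (_ : ε ≤ 1 / 4) (_ : 1 - ε ^ 2 < f x0), ∃ (g : X →L[ℝ] ℝ) (x : X),
      ‖x‖ ≤ 1 ∧ ‖x - x0‖ ≤ ε ∧ ‖g‖ ≤ 1 ∧ g x = 1 ∧ ‖g - f‖ ≤ 3 * ε)
    [NormedAddCommGroup W] [NormedSpace ℝ W] (g : ι → W →L[ℝ] ℝ) (u : ι → W)
    (hg : ∀ i w, |g i w| ≤ ‖w‖) (hn : ∀ w r, 0 ≤ r → (∀ i, |g i w| ≤ r) → ‖w‖ ≤ r)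
    (h1 : ∀ i, g i (u i) = 1) (h2 : ∀ i j, j ≠ i → |g j (u i)| ≤ 1 / 2)
    (ε : ℝ) (hε : 0 < ε) : ∃ η > 0, ∀ T : X →L[ℝ] W, ‖T‖ = 1 → ∀ x0 : X, ‖x0‖ = 1 →
      1 - η < ‖T x0‖ → ∃ (x : X) (S : X →L[ℝ] W), ‖x‖ = 1 ∧ ‖S‖ = 1 ∧ ‖S x‖ = 1 ∧
        ‖x - x0‖ < ε ∧ ‖S - T‖ < ε := by
  set δ := min (ε / 20) (1 / 4) with hδ
  have hδ0 : 0 < δ := lt_min (by positivity) (by norm_num)
  have hδ1 : δ ≤ ε / 20 := min_le_left _ _
  have hδ2 : δ ≤ 1 / 4 := min_le_right _ _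
  have hu : ∀ i, ‖u i‖ ≤ 1 := by
    intro i
    refine hn _ _ zero_le_one fun j => ?_
    by_cases c : j = i
    · rw [c, h1]; simp
    · linarith [h2 i j c]
  refine ⟨δ ^ 2, by positivity, fun T hT x0 hx0 h => ?_⟩
  obtain ⟨i, hi⟩ : ∃ i, 1 - δ ^ 2 < |g i (T x0)| := by
    by_contra c
    push Not at c
    have := hn _ _ (by nlinarith) c
    linarith
  obtain ⟨s, hs, hs2⟩ : ∃ s : ℝ, |s| = 1 ∧ s * g i (T x0) = |g i (T x0)| := by
    rcases le_total 0 (g i (T x0)) with c | c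
    · exact ⟨1, by simp, by rw [abs_of_nonneg c, one_mul]⟩
    · exact ⟨-1, by simp, by rw [abs_of_nonpos c]; ring⟩
  have hss : s * s = 1 := by rw [← abs_mul_abs_self, hs, one_mul]
  have hTz : ∀ z, ‖T z‖ ≤ ‖z‖ := fun z => by simpa [hT] using T.le_opNorm z
  set f : X →L[ℝ] ℝ := g i ∘L T with hf
  have hf1 : ‖f‖ ≤ 1 := f.opNorm_le_bound zero_le_one fun z => by
    rw [one_mul]; exact (hg i _).trans (hTz z)
  obtain ⟨k, x, a1, a2, a3, a4, a5⟩ := bpb f hf1 (s • x0)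
    (by rw [norm_smul, Real.norm_eq_abs, hs, hx0]; simp) δ hδ0 hδ2
    (by rw [map_smul, smul_eq_mul]; exact hi.trans_eq hs2.symm)
  set c : ℝ := 1 + 6 * δ with hc
  have hc0 : 0 < c := by positivity
  set q : X →L[ℝ] ℝ := c • k - f with hq
  have hqn : ‖q‖ ≤ 9 * δ := by
    have e1 : q = (6 * δ) • k + (k - f) := by
      rw [hq, hc, add_smul, one_smul]; abel
    rw [e1]
    refine (norm_add_le _ _).trans ?_
    rw [norm_smul, Real.norm_eq_abs, abs_of_pos (by positivity)]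
    nlinarith
  set S0 : X →L[ℝ] W := T + q.smulRight (u i) with hS0
  have S0_app : ∀ z, S0 z = T z + q z • u i := fun z => rfl
  have gi : ∀ z, g i (S0 z) = c * k z := by
    intro z
    rw [S0_app, map_add, map_smul, h1, smul_eq_mul, mul_one, hq]
    show g i (T z) + (c * k z - g i (T z)) = _
    ring
  have hS0n : ‖S0‖ ≤ c := by
    refine S0.opNorm_le_bound hc0.le fun z => hn _ _ (by positivity) fun j => ?_
    by_cases cj : j = i
    · rw [cj, gi, abs_mul, abs_of_pos hc0]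
      refine mul_le_mul_of_nonneg_left ((k.le_opNorm z).trans ?_) hc0.le
      exact mul_le_of_le_one_left (norm_nonneg _) a3
    · rw [S0_app, map_add, map_smul, smul_eq_mul]
      refine (abs_add_le _ _).trans ?_
      rw [abs_mul]
      have b1 := (hg j (T z)).trans (hTz z)
      have b2 : |q z| ≤ 9 * δ * ‖z‖ := (q.le_opNorm z).trans
        (mul_le_mul_of_nonneg_right hqn (norm_nonneg _))
      have b3 := mul_le_mul b2 (h2 i j cj) (abs_nonneg _) (by positivity)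
      have := norm_nonneg z
      nlinarith
  have hx1 : ‖x‖ = 1 := by
    refine le_antisymm a1 ?_
    have := (le_abs_self _).trans (k.le_opNorm x)
    rw [a4] at this
    exact this.trans (mul_le_of_le_one_left (norm_nonneg _) a3)
  have hSx : c ≤ ‖S0 x‖ := by
    have := hg i (S0 x)
    rwa [gi, a4, mul_one, abs_of_pos hc0] at this
  have hSx2 : ‖S0 x‖ ≤ ‖S0‖ := S0.unit_le_opNorm x a1
  have e1 : ‖S0‖ = c := le_antisymm hS0n (hSx.trans hSx2)
  have e2 : ‖S0 x‖ = c := le_antisymm (hSx2.trans hS0n) hSx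
  have hci : |c⁻¹| = c⁻¹ := abs_of_pos (inv_pos.2 hc0)
  refine ⟨s • x, c⁻¹ • S0, ?_, ?_, ?_, ?_, ?_⟩
  · rw [norm_smul, Real.norm_eq_abs, hs, hx1, one_mul]
  · rw [norm_smul, Real.norm_eq_abs, hci, e1, inv_mul_cancel₀ hc0.ne']
  · rw [map_smul, norm_smul, Real.norm_eq_abs, hs, one_mul, smul_apply,
      norm_smul, Real.norm_eq_abs, hci, e2, inv_mul_cancel₀ hc0.ne']
  · have : s • x - x0 = s • (x - s • x0) := by rw [smul_sub, smul_smul, hss, one_smul]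
    rw [this, norm_smul, Real.norm_eq_abs, hs, one_mul]
    linarith
  · have e3 : c⁻¹ • S0 - T = (c⁻¹ - 1) • S0 + q.smulRight (u i) := by
      rw [sub_smul, one_smul, hS0]; abel
    rw [e3]
    refine (norm_add_le _ _).trans_lt ?_
    have b1 : c⁻¹ ≤ 1 := inv_le_one_of_one_le₀ (by linarith)
    rw [norm_smul, Real.norm_eq_abs, abs_of_nonpos (by linarith), e1,
      ContinuousLinearMap.norm_smulRight_apply, neg_sub, sub_mul, inv_mul_cancel₀ hc0.ne']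
    have b2 : ‖q‖ * ‖u i‖ ≤ 9 * δ := (mul_le_of_le_one_right (norm_nonneg _) (hu i)).trans hqn
    linarith

section
variable (Z : Type) [NormedAddCommGroup Z] [NormedSpace ℝ Z]

abbrev Γ : Type := sphere (0 : Z) 1 × Bool
abbrev L : Type := lp (fun _ : Γ Z => ℝ) ∞

noncomputable def φ (y : Z) : Z →L[ℝ] ℝ := (exists_dual_vector'' ℝ y).choose

lemma φ_le (y z : Z) : |φ Z y z| ≤ ‖z‖ :=
  ((φ Z y).le_opNorm z).trans
    (mul_le_of_le_one_left (norm_nonneg _) (exists_dual_vector'' ℝ y).choose_spec.1)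

lemma φ_self (y : Z) : φ Z y y = ‖y‖ := (exists_dual_vector'' ℝ y).choose_spec.2

def mk (a : Γ Z → ℝ) (r : ℝ) (h : ∀ l, |a l| ≤ r) : L Z :=
  ⟨a, memℓp_infty ⟨r, by rintro _ ⟨l, rfl⟩; exact h l⟩⟩

lemma cl (a : L Z) (l : Γ Z) : |a l| ≤ ‖a‖ := lp.norm_apply_le_norm (by simp) a l

noncomputable def J : Z →ₗᵢ[ℝ] L Z where
  toFun z := mk Z (fun l => φ Z l.1.1 z) ‖z‖ fun l => φ_le Z _ _
  map_add' a b := lp.ext (funext fun l => map_add (φ Z l.1.1) a b)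
  map_smul' c a := lp.ext (funext fun l => map_smul (φ Z l.1.1) c a)
  norm_map' z := by
    refine le_antisymm (lp.norm_le_of_forall_le (norm_nonneg _) fun l => φ_le Z _ _) ?_
    rcases eq_or_ne z 0 with rfl | hz
    · rw [norm_zero]; exact norm_nonneg _
    · have hz' : 0 < ‖z‖ := norm_pos_iff.2 hz
      set y := ‖z‖⁻¹ • z with hy
      have hy1 : ‖y‖ = 1 := by
        rw [hy, norm_smul, norm_inv, norm_norm, inv_mul_cancel₀ hz'.ne']
      refine le_trans ?_ (cl Z _ (⟨y, mem_sphere_zero_iff_norm.2 hy1⟩, true))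
      show ‖z‖ ≤ |φ Z y z|
      have h1 : φ Z y y = 1 := (φ_self Z y).trans hy1
      have h2 : φ Z y z = ‖z‖ := by
        have : z = ‖z‖ • y := by rw [hy, smul_smul, mul_inv_cancel₀ hz'.ne', one_smul]
        conv_lhs => rw [this, map_smul]
        rw [h1, smul_eq_mul, mul_one]
      rw [h2]; exact le_abs_self _

lemma J_app (z : Z) (l : Γ Z) : J Z z l = φ Z l.1.1 z := rfl

lemma av_le (a : L Z) (l : Γ Z) : |(a (l.1, true) + a (l.1, false)) / 2| ≤ ‖a‖ := by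
  have h1 := abs_le.1 (cl Z a (l.1, true))
  have h2 := abs_le.1 (cl Z a (l.1, false))
  rw [abs_le]; constructor <;> linarith

noncomputable def av : L Z →L[ℝ] L Z :=
  LinearMap.mkContinuous ⟨⟨fun a => mk Z (fun l => (a (l.1, true) + a (l.1, false)) / 2) ‖a‖
    (av_le Z a), fun a b => lp.ext (funext fun l => by
      show ((a (l.1, true) + b (l.1, true)) + (a (l.1, false) + b (l.1, false))) / 2 =
        (a (l.1, true) + a (l.1, false)) / 2 + (b (l.1, true) + b (l.1, false)) / 2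
      ring)⟩, fun c a => lp.ext (funext fun l => by
      show (c * a (l.1, true) + c * a (l.1, false)) / 2 =
        c * ((a (l.1, true) + a (l.1, false)) / 2)
      ring)⟩ 1 fun a => by
    rw [one_mul]; exact lp.norm_le_of_forall_le (norm_nonneg _) (av_le Z a)

lemma av_app (a : L Z) (l : Γ Z) : av Z a l = (a (l.1, true) + a (l.1, false)) / 2 := rfl

lemma av_norm (a : L Z) : ‖av Z a‖ ≤ ‖a‖ := lp.norm_le_of_forall_le (norm_nonneg _) (av_le Z a)

lemma av_J (z : Z) : av Z (J Z z) = J Z z := lp.ext (funext fun l => by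
  show (φ Z l.1.1 z + φ Z l.1.1 z) / 2 = φ Z l.1.1 z
  ring)

noncomputable def R : Submodule ℝ (L Z) := LinearMap.range (J Z).toLinearMap

noncomputable def V : Submodule ℝ (L Z) := (R Z).comap (av Z).toLinearMap

lemma R_closed [CompleteSpace Z] : IsClosed (R Z : Set (L Z)) :=
  (J Z).isometry.isClosedEmbedding.isClosed_range

def W : Type := V Z
noncomputable instance : NormedAddCommGroup (W Z) := inferInstanceAs (NormedAddCommGroup (V Z))
noncomputable instance : NormedSpace ℝ (W Z) := inferInstanceAs (NormedSpace ℝ (V Z))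
instance [CompleteSpace Z] : CompleteSpace (W Z) :=
  ((R_closed Z).preimage (av Z).continuous).isComplete.completeSpace_coe

noncomputable def val : W Z →L[ℝ] L Z := (V Z).subtypeL

lemma val_norm (w : W Z) : ‖val Z w‖ = ‖w‖ := rfl

noncomputable def g (l : Γ Z) : W Z →L[ℝ] ℝ := lp.evalCLM ℝ (fun _ : Γ Z => ℝ) ∞ l ∘L val Z

lemma g_app (l : Γ Z) (w : W Z) : g Z l w = val Z w l := rfl

open Classical in
noncomputable def ua (i l : Γ Z) : ℝ :=
  φ Z l.1.1 i.1.1 / 2 + if l.1 = i.1 then (if l.2 = i.2 then 1 / 2 else -1 / 2) else 0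

lemma φ_le1 (i l : Γ Z) : |φ Z l.1.1 i.1.1| ≤ 1 :=
  (φ_le Z _ _).trans_eq (mem_sphere_zero_iff_norm.1 i.1.2)

lemma ua_self (i : Γ Z) : ua Z i i = 1 := by
  rw [ua, φ_self, mem_sphere_zero_iff_norm.1 i.1.2]; norm_num

lemma ua_ne (i l : Γ Z) (h : l ≠ i) : |ua Z i l| ≤ 1 / 2 := by
  unfold ua
  split_ifs with h1 h2
  · exact absurd (Prod.ext h1 h2) h
  · rw [h1, φ_self, mem_sphere_zero_iff_norm.1 i.1.2]; norm_num
  · have := abs_le.1 (φ_le1 Z i l)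
    rw [abs_le]; constructor <;> linarith

lemma ua_le (i l : Γ Z) : |ua Z i l| ≤ 1 := by
  by_cases h : l = i
  · rw [h, ua_self]; simp
  · linarith [ua_ne Z i l h]

noncomputable def u (i : Γ Z) : W Z := ⟨mk Z (ua Z i) 1 (ua_le Z i), ⟨(1 / 2 : ℝ) • i.1.1,
  lp.ext (funext fun l => by
    show φ Z l.1.1 ((1 / 2 : ℝ) • i.1.1) = (ua Z i (l.1, true) + ua Z i (l.1, false)) / 2
    rw [map_smul, smul_eq_mul]
    unfold ua
    obtain ⟨i, b⟩ := i
    cases b <;> split_ifs <;> simp_all <;> ring)⟩⟩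

lemma g_u (i l : Γ Z) : g Z l (u Z i) = ua Z i l := rfl

noncomputable def j : Z →ₗᵢ[ℝ] W Z where
  toFun z := ⟨J Z z, z, (av_J Z z).symm⟩
  map_add' a b := Subtype.ext (map_add (J Z) a b)
  map_smul' c a := Subtype.ext (map_smul (J Z) c a)
  norm_map' z := (J Z).norm_map z

lemma av_mem (w : W Z) : av Z (val Z w) ∈ V Z := by
  obtain ⟨z, hz⟩ : ∃ z, J Z z = av Z (val Z w) := w.2
  exact ⟨z, by rw [← hz]; exact (av_J Z z).symm⟩

noncomputable def P : W Z →L[ℝ] W Z := (av Z ∘L val Z).codRestrict (V Z) (av_mem Z)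

lemma P_norm (w : W Z) : ‖P Z w‖ ≤ ‖w‖ := av_norm Z (val Z w)

lemma P_mem (w : W Z) : ∃ z, j Z z = P Z w := by
  obtain ⟨z, hz⟩ : ∃ z, J Z z = av Z (val Z w) := w.2
  exact ⟨z, Subtype.ext hz⟩

lemma P_j (z : Z) : P Z (j Z z) = j Z z := Subtype.ext (av_J Z z)

end

lemma good (Z : Type) [NormedAddCommGroup Z] [NormedSpace ℝ Z] (ε : ℝ) (hε : 0 < ε) :
    ∃ η > 0, ∀ T : C0 →L[ℝ] W Z, ‖T‖ = 1 → ∀ x0 : C0, ‖x0‖ = 1 →
      1 - η < ‖T x0‖ → ∃ (x : C0) (S : C0 →L[ℝ] W Z), ‖x‖ = 1 ∧ ‖S‖ = 1 ∧ ‖S x‖ = 1 ∧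
        ‖x - x0‖ < ε ∧ ‖S - T‖ < ε :=
  beta bpb (g Z) (u Z) (fun i w => cl Z (val Z w) i)
    (fun w _ hr h => lp.norm_le_of_forall_le (f := val Z w) hr h)
    (fun i => (g_u Z i i).trans (ua_self Z i)) (fun i l h => by rw [g_u]; exact ua_ne Z i l h) ε hε

lemma bad {X Y Y' : Type} [NormedAddCommGroup X] [NormedSpace ℝ X] [NormedAddCommGroup Y]
    [NormedSpace ℝ Y] [NormedAddCommGroup Y'] [NormedSpace ℝ Y'] (e : Y ≃ₗᵢ[ℝ] Y')
    (T0 : X →L[ℝ] Y) (h0 : T0 ≠ 0)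
    (far : ∀ (S : X →L[ℝ] Y) (x : X), ‖x‖ ≤ 1 → ‖S‖ ≤ ‖S x‖ → ∀ c : ℝ, |c| ≤ ‖S - c • T0‖) :
    ¬ ∀ ε > 0, ∃ η > 0, ∀ T : X →L[ℝ] Y', ‖T‖ = 1 → ∀ x0 : X, ‖x0‖ = 1 →
      1 - η < ‖T x0‖ → ∃ (x : X) (S : X →L[ℝ] Y'), ‖x‖ = 1 ∧ ‖S‖ = 1 ∧ ‖S x‖ = 1 ∧
        ‖x - x0‖ < ε ∧ ‖S - T‖ < ε := by
  intro H
  have hp : 0 < ‖T0‖ := norm_pos_iff.2 h0
  obtain ⟨η, hη, H⟩ := H ‖T0‖⁻¹ (inv_pos.2 hp)
  set T1 : X →L[ℝ] Y := ‖T0‖⁻¹ • T0 with hT1
  have n1 : ‖T1‖ = 1 := by rw [hT1, norm_smul, norm_inv, norm_norm, inv_mul_cancel₀ hp.ne']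
  set T : X →L[ℝ] Y' := e.toLinearIsometry.toContinuousLinearMap ∘L T1 with hT
  have n2 : ‖T‖ = 1 := by rw [hT, LinearIsometry.norm_toContinuousLinearMap_comp, n1]
  obtain ⟨y, hy1, hy2⟩ := T.exists_lt_apply_of_lt_opNorm (r := max (1 - η) 0)
    (by rw [n2]; exact max_lt (by linarith) one_pos)
  have hy0 : 0 < ‖y‖ := by
    refine norm_pos_iff.2 fun c => ?_
    rw [c, map_zero, norm_zero] at hy2
    exact absurd hy2 (not_lt.2 (le_max_right _ _))
  obtain ⟨x, S, a1, a2, a3, -, a5⟩ := H T n2 (‖y‖⁻¹ • y)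
    (by rw [norm_smul, norm_inv, norm_norm, inv_mul_cancel₀ hy0.ne'])
    (by
      rw [map_smul, norm_smul, norm_inv, norm_norm]
      have b1 : 1 ≤ ‖y‖⁻¹ := (one_le_inv₀ hy0).2 hy1.le
      have b2 := (le_max_left _ _).trans_lt hy2
      nlinarith [norm_nonneg (T y)])
  set S' : X →L[ℝ] Y := e.symm.toLinearIsometry.toContinuousLinearMap ∘L S with hS'
  have b1 : ‖S'‖ = 1 := by rw [hS', LinearIsometry.norm_toContinuousLinearMap_comp, a2]
  have b2 : ‖S' x‖ = 1 := (e.symm.norm_map (S x)).trans a3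
  have b3 := far S' x a1.le (by rw [b1, b2]) ‖T0‖⁻¹
  have b4 : S' - T1 = e.symm.toLinearIsometry.toContinuousLinearMap ∘L (S - T) := by
    ext z
    simp [hS', hT]
  rw [← hT1, b4, LinearIsometry.norm_toContinuousLinearMap_comp,
    abs_of_pos (inv_pos.2 hp)] at b3
  linarith

lemma T0_ne : T0 ≠ 0 := by
  intro h
  have h1 := le_T0 (e 0)
  have h5 : 0 < ‖e 0‖ := lt_of_lt_of_le (by simp [e_app]) (co _ 0)
  rw [h] at h1
  have : ‖(0 : C0 →L[ℝ] Y) (e 0)‖ = 0 := norm_zero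
  linarith

end Pool.Agent.H.MP_7aa09c_an
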