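import Pool.Agent.H.MP_7aa09c_an.Main

namespace Pool.Agent.H.MP_7aa09c_an

open Metric Pool.Agent.Lib.helper22.Lind

lemma core {X W ι : Type} [NormedAddCommGroup X] [NormedSpace ℝ X]
    [NormedAddCommGroup W] [NormedSpace ℝ W] (g : ι → W →L[ℝ] ℝ) (u : ι → W)
    (hg : ∀ i w, |g i w| ≤ ‖w‖) (hn : ∀ w r, 0 ≤ r → (∀ i, |g i w| ≤ r) → ‖w‖ ≤ r)
    (h1 : ∀ i, g i (u i) = 1) (h2 : ∀ i j, j ≠ i → |g j (u i)| ≤ 1 / 2)
    (δ : ℝ) (hδ0 : 0 < δ) (T : X →L[ℝ] W) (hT : ‖T‖ = 1) (i : ι) (k : X →L[ℝ] ℝ) (x : X)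
    (a1 : ‖x‖ ≤ 1) (a3 : ‖k‖ ≤ 1) (a4 : k x = 1) (a5 : ‖k - g i ∘L T‖ ≤ 3 * δ) :
    ∃ S : X →L[ℝ] W, ‖S‖ = 1 ∧ ‖S x‖ = 1 ∧ ‖S - T‖ ≤ 15 * δ := by
  have hu : ∀ i, ‖u i‖ ≤ 1 := by
    intro i
    refine hn _ _ zero_le_one fun j => ?_
    by_cases c : j = i
    · rw [c, h1]; simp
    · linarith [h2 i j c]
  have hTz : ∀ z, ‖T z‖ ≤ ‖z‖ := fun z => by simpa [hT] using T.le_opNorm z
  set f : X →L[ℝ] ℝ := g i ∘L T with hf
  set c : ℝ := 1 + 6 * δ with hc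
  have hc0 : 0 < c := by positivity
  set q : X →L[ℝ] ℝ := c • k - f with hq
  have hqn : ‖q‖ ≤ 9 * δ := by
    have e1 : q = (6 * δ) • k + (k - f) := by
      rw [hq, hc, add_smul, one_smul]; abel
    rw [e1]
    refine (norm_add_le _ _).trans ?_
    rw [norm_smul, Real.norm_eq_abs, abs_of_pos (by positivity)]
    nlinarith
  set S0 : X →L[ℝ] W := T + q.smulRight (u i) with hS0
  have S0_app : ∀ z, S0 z = T z + q z • u i := fun z => rfl
  have gi : ∀ z, g i (S0 z) = c * k z := by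
    intro z
    rw [S0_app, map_add, map_smul, h1, smul_eq_mul, mul_one, hq]
    show g i (T z) + (c * k z - g i (T z)) = _
    ring
  have hS0n : ‖S0‖ ≤ c := by
    refine S0.opNorm_le_bound hc0.le fun z => hn _ _ (by positivity) fun j => ?_
    by_cases cj : j = i
    · rw [cj, gi, abs_mul, abs_of_pos hc0]
      refine mul_le_mul_of_nonneg_left ((k.le_opNorm z).trans ?_) hc0.le
      exact mul_le_of_le_one_left (norm_nonneg _) a3
    · rw [S0_app, map_add, map_smul, smul_eq_mul]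
      refine (abs_add_le _ _).trans ?_
      rw [abs_mul]
      have b1 := (hg j (T z)).trans (hTz z)
      have b2 : |q z| ≤ 9 * δ * ‖z‖ := (q.le_opNorm z).trans
        (mul_le_mul_of_nonneg_right hqn (norm_nonneg _))
      have b3 := mul_le_mul b2 (h2 i j cj) (abs_nonneg _) (by positivity)
      have := norm_nonneg z
      nlinarith
  have hSx : c ≤ ‖S0 x‖ := by
    have := hg i (S0 x)
    rwa [gi, a4, mul_one, abs_of_pos hc0] at this
  have hSx2 : ‖S0 x‖ ≤ ‖S0‖ := S0.unit_le_opNorm x a1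
  have e1 : ‖S0‖ = c := le_antisymm hS0n (hSx.trans hSx2)
  have e2 : ‖S0 x‖ = c := le_antisymm (hSx2.trans hS0n) hSx
  have hci : |c⁻¹| = c⁻¹ := abs_of_pos (inv_pos.2 hc0)
  refine ⟨c⁻¹ • S0, ?_, ?_, ?_⟩
  · rw [norm_smul, Real.norm_eq_abs, hci, e1, inv_mul_cancel₀ hc0.ne']
  · rw [smul_apply, norm_smul, Real.norm_eq_abs, hci, e2, inv_mul_cancel₀ hc0.ne']
  · have e3 : c⁻¹ • S0 - T = (c⁻¹ - 1) • S0 + q.smulRight (u i) := by
      rw [sub_smul, one_smul, hS0]; abel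
    rw [e3]
    refine (norm_add_le _ _).trans ?_
    have b1 : c⁻¹ ≤ 1 := inv_le_one_of_one_le₀ (by linarith)
    rw [norm_smul, Real.norm_eq_abs, abs_of_nonpos (by linarith), e1,
      ContinuousLinearMap.norm_smulRight_apply, neg_sub, sub_mul, inv_mul_cancel₀ hc0.ne']
    have b2 : ‖q‖ * ‖u i‖ ≤ 9 * δ := (mul_le_of_le_one_right (norm_nonneg _) (hu i)).trans hqn
    linarith

lemma unif {D : Type} [NormedAddCommGroup D] [NormedSpace ℝ D] [FiniteDimensional ℝ D]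
    (h : ∀ F G : D, ‖F‖ ≤ 1 → ‖G‖ ≤ 1 → 2 ≤ ‖F + G‖ → F = G) (ε : ℝ) (hε : 0 < ε) :
    ∃ η > 0, ∀ F G : D, ‖F‖ ≤ 1 → ‖G‖ ≤ 1 → 2 - η < ‖F + G‖ → ‖F - G‖ ≤ ε := by
  have : ProperSpace D := FiniteDimensional.proper ℝ D
  set K : Set (D × D) := (closedBall 0 1 ×ˢ closedBall 0 1) ∩ {p | ε ≤ ‖p.1 - p.2‖} with hK
  have hc : IsCompact K := ((isCompact_closedBall 0 1).prod (isCompact_closedBall 0 1)).inter_right
    (isClosed_le continuous_const (by fun_prop))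
  rcases K.eq_empty_or_nonempty with h0 | h0
  · refine ⟨1, one_pos, fun F G hF hG _ => ?_⟩
    by_contra c
    have : (F, G) ∈ K := ⟨⟨mem_closedBall_zero_iff.2 hF, mem_closedBall_zero_iff.2 hG⟩,
      (not_le.1 c).le⟩
    rw [h0] at this
    exact this
  · obtain ⟨p, hp, hm⟩ := hc.exists_isMaxOn h0
      (f := fun p : D × D => ‖p.1 + p.2‖) (by fun_prop)
    have h1 : ‖p.1 + p.2‖ < 2 := by
      by_contra c
      have := h p.1 p.2 (mem_closedBall_zero_iff.1 hp.1.1) (mem_closedBall_zero_iff.1 hp.1.2)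
        (not_lt.1 c)
      have h2 : ε ≤ ‖p.1 - p.2‖ := hp.2
      rw [this, sub_self, norm_zero] at h2
      linarith
    refine ⟨2 - ‖p.1 + p.2‖, by linarith, fun F G hF hG H => ?_⟩
    by_contra c
    have : (F, G) ∈ K := ⟨⟨mem_closedBall_zero_iff.2 hF, mem_closedBall_zero_iff.2 hG⟩,
      (not_le.1 c).le⟩
    have h3 : ‖F + G‖ ≤ ‖p.1 + p.2‖ := hm this
    linarith

lemma betaP {X W ι : Type} [NormedAddCommGroup X] [NormedSpace ℝ X] [FiniteDimensional ℝ X]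
    (h : ∀ F G : X →L[ℝ] ℝ, ‖F‖ ≤ 1 → ‖G‖ ≤ 1 → 2 ≤ ‖F + G‖ → F = G)
    [NormedAddCommGroup W] [NormedSpace ℝ W] (g : ι → W →L[ℝ] ℝ) (u : ι → W)
    (hg : ∀ i w, |g i w| ≤ ‖w‖) (hn : ∀ w r, 0 ≤ r → (∀ i, |g i w| ≤ r) → ‖w‖ ≤ r)
    (h1 : ∀ i, g i (u i) = 1) (h2 : ∀ i j, j ≠ i → |g j (u i)| ≤ 1 / 2) (ε : ℝ) (hε : 0 < ε) :
    ∃ η > 0, ∀ T : X →L[ℝ] W, ‖T‖ = 1 → ∀ x0 : X, ‖x0‖ = 1 →
      1 - η < ‖T x0‖ → ∃ S : X →L[ℝ] W, ‖S‖ = 1 ∧ ‖S x0‖ = 1 ∧ ‖S - T‖ < ε := by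
  obtain ⟨η, hη, H⟩ := unif h (3 * (ε / 20)) (by positivity)
  refine ⟨min η 1, lt_min hη one_pos, fun T hT x0 hx0 h => ?_⟩
  obtain ⟨i, hi⟩ : ∃ i, 1 - min η 1 < |g i (T x0)| := by
    by_contra c
    push Not at c
    have := hn _ _ (by linarith [min_le_right η 1]) c
    linarith
  obtain ⟨s, hs, hs2⟩ : ∃ s : ℝ, |s| = 1 ∧ s * g i (T x0) = |g i (T x0)| := by
    rcases le_total 0 (g i (T x0)) with c | c
    · exact ⟨1, by simp, by rw [abs_of_nonneg c, one_mul]⟩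
    · exact ⟨-1, by simp, by rw [abs_of_nonpos c]; ring⟩
  have hTz : ∀ z, ‖T z‖ ≤ ‖z‖ := fun z => by simpa [hT] using T.le_opNorm z
  have hf1 : ‖g i ∘L T‖ ≤ 1 := (g i ∘L T).opNorm_le_bound zero_le_one fun z => by
    rw [one_mul]; exact (hg i _).trans (hTz z)
  have hx : ‖s • x0‖ = 1 := by rw [norm_smul, Real.norm_eq_abs, hs, hx0, one_mul]
  obtain ⟨k, a3, a4⟩ := exists_dual_vector'' ℝ (s • x0)
  have a4' : k (s • x0) = 1 := a4.trans (by rw [hx]; rfl)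
  have a5 := H k (g i ∘L T) a3 hf1 (by
    have b1 := (k + g i ∘L T).unit_le_opNorm (s • x0) hx.le
    have b2 : (k + g i ∘L T) (s • x0) = 1 + |g i (T x0)| := by
      rw [add_apply, a4', map_smul, smul_eq_mul, ← hs2]; rfl
    rw [b2] at b1
    have b3 := (le_abs_self _).trans b1
    linarith [min_le_left η 1])
  obtain ⟨S, c1, c2, c3⟩ := core g u hg hn h1 h2 (ε / 20) (by positivity) T hT i k (s • x0) hx.le
    a3 a4' a5
  refine ⟨S, c1, ?_, by linarith⟩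
  rwa [map_smul, norm_smul, Real.norm_eq_abs, hs, one_mul] at c2

noncomputable def GZ : Submodule ℝ (WithLp 1 (ℂ × ℝ)) :=
  (Complex.imCLM ∘L WithLp.fstL 1 ℝ ℂ ℝ - WithLp.sndL 1 ℝ ℂ ℝ).ker

def Z : Type := GZ
noncomputable instance : NormedAddCommGroup Z := inferInstanceAs (NormedAddCommGroup GZ)
noncomputable instance : NormedSpace ℝ Z := inferInstanceAs (NormedSpace ℝ GZ)
instance : FiniteDimensional ℝ Z := inferInstanceAs (FiniteDimensional ℝ GZ)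

noncomputable def cz : Z →L[ℝ] ℂ := WithLp.fstL 1 ℝ ℂ ℝ ∘L GZ.subtypeL

lemma snd_eq (v : Z) : v.1.snd = (cz v).im := (sub_eq_zero.1 v.2).symm

lemma Z_norm (v : Z) : ‖v‖ = ‖cz v‖ + |(cz v).im| := by
  rw [← snd_eq]
  exact WithLp.prod_norm_eq_of_L1 v.1

noncomputable def zc (z : ℂ) : Z := ⟨WithLp.toLp 1 (z, z.im), sub_self _⟩

lemma cz_zc (z : ℂ) : cz (zc z) = z := rfl

lemma cz_inj (v w : Z) (h : cz v = cz w) : v = w := by
  have : ‖v - w‖ = 0 := by rw [Z_norm, map_sub, h, sub_self]; simp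
  exact sub_eq_zero.1 (norm_eq_zero.1 this)

lemma Z_strict (v w : Z) (hv : ‖v‖ ≤ 1) (hw : ‖w‖ ≤ 1) (h : 2 ≤ ‖v + w‖) : v = w := by
  have h0 := norm_add_le v w
  have hv1 : ‖v‖ = 1 := by linarith
  have hw1 : ‖w‖ = 1 := by linarith
  rw [Z_norm, map_add, Complex.add_im] at h
  rw [Z_norm] at hv hw
  have h1 := abs_add_le (cz v).im (cz w).im
  have h2 := norm_add_le (cz v) (cz w)
  have h3 : SameRay ℝ (cz v) (cz w) := sameRay_iff_norm_add.2 (by linarith)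
  have hv0 : cz v ≠ 0 := fun c => by
    rw [Z_norm, c] at hv1; simp at hv1
  have hw0 : cz w ≠ 0 := fun c => by
    rw [Z_norm, c] at hw1; simp at hw1
  obtain ⟨r, hr, e⟩ := h3.exists_pos_left hv0 hw0
  have e2 : r • v = w := cz_inj _ _ (by rw [map_smul, e])
  have e3 := congrArg norm e2
  rw [norm_smul, hv1, hw1, mul_one, Real.norm_eq_abs, abs_of_pos hr] at e3
  rw [← e2, e3, one_smul]

def X : Type := Z →L[ℝ] ℝ
noncomputable instance : NormedAddCommGroup X := inferInstanceAs (NormedAddCommGroup (Z →L[ℝ] ℝ))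
noncomputable instance : NormedSpace ℝ X := inferInstanceAs (NormedSpace ℝ (Z →L[ℝ] ℝ))
instance : FiniteDimensional ℝ X := inferInstanceAs (FiniteDimensional ℝ (Z →L[ℝ] ℝ))
instance : CompleteSpace X := inferInstanceAs (CompleteSpace (Z →L[ℝ] ℝ))

noncomputable def evZ : Z →ₗᵢ[ℝ] (X →L[ℝ] ℝ) := NormedSpace.inclusionInDoubleDualLi ℝ (E := Z)

noncomputable def toF (x : X) : Z →L[ℝ] ℝ := x

lemma evZ_app (v : Z) (x : X) : evZ v x = toF x v := rfl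

noncomputable def xa : X := Complex.reCLM ∘L cz
noncomputable def xb : X := Complex.imCLM ∘L cz

lemma X_dec (x : X) : x = evZ (zc 1) x • xa + evZ (zc Complex.I) x • xb := by
  refine ContinuousLinearMap.ext fun v => ?_
  have : v = (cz v).re • zc 1 + (cz v).im • zc Complex.I := by
    apply cz_inj
    rw [map_add, map_smul, map_smul, cz_zc, cz_zc]
    apply Complex.ext <;> simp
  show toF x v = toF x (zc 1) * (cz v).re + toF x (zc Complex.I) * (cz v).im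
  conv_lhs => rw [this, map_add, map_smul, map_smul]
  simp [mul_comm]

lemma evZ_surj (F : X →L[ℝ] ℝ) : ∃ v, evZ v = F := by
  refine ⟨F xa • zc 1 + F xb • zc Complex.I, ContinuousLinearMap.ext fun x => ?_⟩
  conv_rhs => rw [X_dec x, map_add, map_smul, map_smul]
  rw [map_add, map_smul, map_smul, add_apply, smul_apply, smul_apply]
  simp [mul_comm]

lemma X_smooth (F G : X →L[ℝ] ℝ) (hF : ‖F‖ ≤ 1) (hG : ‖G‖ ≤ 1) (h : 2 ≤ ‖F + G‖) : F = G := by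
  obtain ⟨v, rfl⟩ := evZ_surj F
  obtain ⟨w, rfl⟩ := evZ_surj G
  rw [← map_add, evZ.norm_map] at h
  rw [evZ.norm_map] at hF hG
  rw [Z_strict v w hF hG h]

lemma X_le (x : X) (h : ∀ v, |toF x v| ≤ ‖cz v‖ + |(cz v).im|) : ‖x‖ ≤ 1 :=
  (toF x).opNorm_le_bound zero_le_one fun v => by rw [one_mul, Z_norm]; exact h v

lemma n1 : ‖evZ (zc 1)‖ = 1 := by rw [evZ.norm_map, Z_norm, cz_zc]; simp
lemma n2 : ‖evZ (zc Complex.I)‖ = 2 := by rw [evZ.norm_map, Z_norm, cz_zc]; simp; norm_num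

lemma xa_norm : ‖xa‖ = 1 := by
  refine le_antisymm (X_le _ fun v => ?_) ?_
  · have := Complex.abs_re_le_norm (cz v)
    have h2 := abs_nonneg (cz v).im
    show |(cz v).re| ≤ _
    linarith
  · have := (evZ (zc 1)).le_opNorm xa
    rw [n1, one_mul] at this
    refine le_trans (le_of_eq ?_) this
    show 1 = |(1 : ℂ).re|
    simp

lemma xb_norm : ‖xb‖ ≤ 1 := X_le _ fun v => by
  have := norm_nonneg (cz v)
  show |(cz v).im| ≤ _
  linarith

lemma xab1 : ‖xa + xb‖ ≤ 1 := X_le _ fun v => by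
  have := Complex.abs_re_le_norm (cz v)
  show |(cz v).re + (cz v).im| ≤ _
  exact (abs_add_le _ _).trans (by linarith)

lemma xab2 : ‖xa - xb‖ ≤ 1 := X_le _ fun v => by
  have := Complex.abs_re_le_norm (cz v)
  show |(cz v).re - (cz v).im| ≤ _
  exact (abs_sub _ _).trans (by linarith)

lemma goodP (Z' : Type) [NormedAddCommGroup Z'] [NormedSpace ℝ Z'] (ε : ℝ) (hε : 0 < ε) :
    ∃ η > 0, ∀ T : X →L[ℝ] W Z', ‖T‖ = 1 → ∀ x0 : X, ‖x0‖ = 1 →
      1 - η < ‖T x0‖ → ∃ S : X →L[ℝ] W Z', ‖S‖ = 1 ∧ ‖S x0‖ = 1 ∧ ‖S - T‖ < ε :=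
  betaP X_smooth (g Z') (u Z') (fun i w => cl Z' (val Z' w) i)
    (fun w _ hr h => lp.norm_le_of_forall_le (f := val Z' w) hr h)
    (fun i => (g_u Z' i i).trans (ua_self Z' i)) (fun i l h => by rw [g_u]; exact ua_ne Z' i l h)
    ε hε

lemma E_norm (n : ℕ) : ‖E n‖ = 1 := by
  refine le_antisymm (nle _ zero_le_one fun k => ?_) ?_
  · rw [E_app]; split_ifs <;> simp
  · simpa [E_app] using co (E n) n

lemma D_E (n : ℕ) : ‖D (E n)‖ = (1 / 2) ^ n := by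
  have : D (E n) = lp.single 2 n ((1 / 2 : ℝ) ^ n) := lp.ext (funext fun k => by
    show E n k * (1 / 2) ^ k = _
    rw [E_app]
    split_ifs with h
    · rw [h, one_mul, lp.single_apply_self]
    · rw [zero_mul, lp.single_apply_ne _ _ _ h])
  rw [this, lp.norm_single (by norm_num), Real.norm_eq_abs, abs_of_pos (by positivity)]

lemma T0_le (x : C0) : ‖T0 x‖ ≤ ‖x‖ + ‖D x‖ := by
  have h1 : ‖T0 x‖ ^ 2 = ‖x‖ ^ 2 + ‖D x‖ ^ 2 := nsq (T0 x)
  refine abs_le_of_sq_le_sq' ?_ (by positivity) |>.2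
  nlinarith [mul_nonneg (norm_nonneg x) (norm_nonneg (D x))]

lemma two (n : ℕ) (a b r : ℝ) (ha : |a| ≤ r) (hb : |b| ≤ r) :
    ‖a • T0 (E n) + b • T0 (E (n + 1))‖ ≤ (1 + 2 * (1 / 2) ^ n) * r := by
  have hr : 0 ≤ r := (abs_nonneg a).trans ha
  rw [← map_smul, ← map_smul, ← map_add]
  refine (T0_le _).trans ?_
  have h1 : ‖a • E n + b • E (n + 1)‖ ≤ r := nle _ hr fun k => by
    show |a * E n k + b * E (n + 1) k| ≤ r
    rw [E_app, E_app]
    split_ifs with h1 h2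
    · omega
    · simpa using ha
    · simpa using hb
    · simpa using hr
  have h2 : ‖D (a • E n + b • E (n + 1))‖ ≤ 2 * (1 / 2) ^ n * r := by
    rw [map_add, map_smul, map_smul]
    refine (norm_add_le _ _).trans ?_
    rw [norm_smul, norm_smul, D_E, D_E, pow_succ, Real.norm_eq_abs, Real.norm_eq_abs]
    have : (0:ℝ) < (1 / 2) ^ n := by positivity
    nlinarith [abs_nonneg b]
  linarith

lemma badP {Y' : Type} [NormedAddCommGroup Y'] [NormedSpace ℝ Y'] (e : Y ≃ₗᵢ[ℝ] Y') :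
    ¬ ∀ ε > 0, ∃ η > 0, ∀ T : X →L[ℝ] Y', ‖T‖ = 1 → ∀ x0 : X, ‖x0‖ = 1 →
      1 - η < ‖T x0‖ → ∃ S : X →L[ℝ] Y', ‖S‖ = 1 ∧ ‖S x0‖ = 1 ∧ ‖S - T‖ < ε := by
  intro H
  obtain ⟨η, hη, H⟩ := H (1 / 6) (by norm_num)
  obtain ⟨n, hn⟩ := exists_pow_lt_of_lt_one (half_pos hη) (by norm_num : (1 / 2 : ℝ) < 1)
  have hp0 : (0:ℝ) < (1 / 2) ^ n := by positivity
  have hp1 : (1 / 2 : ℝ) ^ n ≤ 1 := pow_le_one₀ (by norm_num) (by norm_num)
  set y1 : Y' := e (T0 (E n)) with hy1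
  set y2 : Y' := e (T0 (E (n + 1))) with hy2
  have l1 : 1 ≤ ‖y1‖ := by rw [hy1, e.norm_map, ← E_norm n]; exact le_T0 _
  have l2 : 1 ≤ ‖y2‖ := by rw [hy2, e.norm_map, ← E_norm (n + 1)]; exact le_T0 _
  set T1 : X →L[ℝ] Y' := (evZ (zc 1)).smulRight y1 +
    (evZ (zc Complex.I)).smulRight ((1 / 2 : ℝ) • y2) with hT1
  have T1_app : ∀ x, T1 x = evZ (zc 1) x • y1 + (evZ (zc Complex.I) x * (1 / 2)) • y2 := by
    intro x
    rw [mul_smul]; rfl
  have b1 : ‖T1‖ ≤ 1 + 2 * (1 / 2) ^ n := by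
    refine T1.opNorm_le_bound (by positivity) fun x => ?_
    rw [T1_app, hy1, hy2, ← map_smul e, ← map_smul e, ← map_add, e.norm_map]
    apply two
    · have := (evZ (zc 1)).le_opNorm x
      rwa [n1, one_mul] at this
    · have := (evZ (zc Complex.I)).le_opNorm x
      rw [n2, Real.norm_eq_abs] at this
      rw [abs_mul, abs_of_pos (by norm_num : (0:ℝ) < 1 / 2)]
      linarith
  have b2 : T1 xa = y1 := by
    rw [T1_app]
    show (1 : ℂ).re • y1 + (Complex.I.re * (1 / 2)) • y2 = y1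
    simp
  have b3 : T1 xb = (1 / 2 : ℝ) • y2 := by
    rw [T1_app]
    show (1 : ℂ).im • y1 + (Complex.I.im * (1 / 2)) • y2 = _
    simp
  have b4 : 1 ≤ ‖T1‖ := by
    have := T1.unit_le_opNorm xa xa_norm.le
    rw [b2] at this
    linarith
  have hp : 0 < ‖T1‖ := by linarith
  obtain ⟨S, a1, a2, a3⟩ := H (‖T1‖⁻¹ • T1)
    (by rw [norm_smul, norm_inv, norm_norm, inv_mul_cancel₀ hp.ne']) xa xa_norm (by
      rw [smul_apply, norm_smul, norm_inv, norm_norm, b2, lt_inv_mul_iff₀ hp]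
      rcases le_total η 1 with c | c <;> nlinarith)
  have c1 : e.symm (S xb) = 0 := by
    apply strict (e.symm (S xa))
    · rw [← map_add, ← map_add, e.symm.norm_map, e.symm.norm_map, a2, ← a1]
      exact S.unit_le_opNorm _ xab1
    · rw [← map_sub, ← map_sub, e.symm.norm_map, e.symm.norm_map, a2, ← a1]
      exact S.unit_le_opNorm _ xab2
  have c2 : S xb = 0 := by simpa using congrArg e c1
  have c3 := (S - ‖T1‖⁻¹ • T1).unit_le_opNorm xb xb_norm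
  rw [sub_apply, c2, zero_sub, norm_neg, smul_apply, b3, norm_smul, norm_smul, norm_inv, norm_norm,
    inv_mul_le_iff₀ hp, Real.norm_eq_abs, abs_of_pos (by norm_num : (0:ℝ) < 1 / 2)] at c3
  nlinarith [norm_nonneg (S - ‖T1‖⁻¹ • T1)]

end Pool.Agent.H.MP_7aa09c_an
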